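import Mathlib

/-! # The determinant identity of Faddeev and Popov (project AF, helper16) -/

set_option autoImplicit false

open Matrix

namespace Pool.Agent.Y721.AF

/-- the identity in blocks -/
theorem fp_blocks {W T : Type} [Fintype W] [Fintype T] [DecidableEq W] [DecidableEq T]
    (A : Matrix W W ℂ) (B : Matrix W T ℂ) (C : Matrix T W ℂ) (E : Matrix T T ℂ)
    (U : Matrix W T ℂ) (V : Matrix T T ℂ)
    (h1 : A * U + B * V = 0) (h2 : C * U + E * V = 0) (h3 : Uᴴ * A + Vᴴ * C = 0) :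
    det (fromBlocks A B C E + fromRows U V * (fromRows U V)ᴴ) * (det V * star (det V)) =
      det ((fromRows U V)ᴴ * fromRows U V) ^ 2 * det A := by
  obtain ⟨X, hX⟩ : ∃ X : Matrix T T ℂ, X = Uᴴ * U + Vᴴ * V := ⟨_, rfl⟩
  have e1 : (fromRows U V)ᴴ * fromRows U V = X := by
    rw [conjTranspose_fromRows_eq_fromCols_conjTranspose, fromCols_mul_fromRows, hX]
  have e2 : fromRows U V * (fromRows U V)ᴴ = fromBlocks (U * Uᴴ) (U * Vᴴ) (V * Uᴴ) (V * Vᴴ) := by
    rw [conjTranspose_fromRows_eq_fromCols_conjTranspose, fromRows_mul_fromCols]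
  have key : fromBlocks 1 0 Uᴴ Vᴴ *
      (fromBlocks A B C E + fromRows U V * (fromRows U V)ᴴ) * fromBlocks 1 U 0 V =
      fromBlocks 1 U 0 X * fromBlocks A 0 0 1 * fromBlocks 1 0 Uᴴ X := by
    rw [e2, fromBlocks_add, fromBlocks_multiply, fromBlocks_multiply, fromBlocks_multiply,
      fromBlocks_multiply]
    have hX2 : Vᴴ * V = X - Uᴴ * U := by rw [hX]; abel
    have h4 : Vᴴ * C = - (Uᴴ * A) := by
      rw [eq_neg_iff_add_eq_zero, add_comm]; exact h3
    congr 1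
    · simp
    · simp only [Matrix.one_mul, Matrix.zero_mul, add_zero, Matrix.mul_zero, Matrix.mul_one,
        zero_add]
      rw [Matrix.add_mul, Matrix.add_mul, Matrix.mul_assoc, Matrix.mul_assoc, hX2]
      calc A * U + U * (Uᴴ * U) + (B * V + U * (X - Uᴴ * U)) =
          (A * U + B * V) + (U * (Uᴴ * U) + U * (X - Uᴴ * U)) := by abel
        _ = U * X := by rw [h1, zero_add, ← Matrix.mul_add]; congr 1; abel
    · simp only [Matrix.one_mul, Matrix.zero_mul, add_zero, Matrix.mul_zero, Matrix.mul_one,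
        zero_add]
      rw [Matrix.mul_add, Matrix.mul_add, h4, ← Matrix.mul_assoc, ← Matrix.mul_assoc, hX2,
        Matrix.sub_mul]
      abel
    · simp only [Matrix.one_mul, Matrix.zero_mul, add_zero, Matrix.mul_zero, Matrix.mul_one,
        zero_add]
      rw [Matrix.mul_add, Matrix.mul_add, Matrix.mul_add, Matrix.mul_add, h4,
        ← Matrix.mul_assoc Uᴴ U, ← Matrix.mul_assoc Vᴴ V, ← Matrix.mul_assoc Uᴴ U,
        ← Matrix.mul_assoc Vᴴ V, hX2]
      have h5 : (-(Uᴴ * A) + (X - Uᴴ * U) * Uᴴ) = X * Uᴴ - Uᴴ * U * Uᴴ - Uᴴ * A := by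
        rw [Matrix.sub_mul]; abel
      have h6 : Uᴴ * A + Uᴴ * U * Uᴴ + (-(Uᴴ * A) + (X - Uᴴ * U) * Uᴴ) = X * Uᴴ := by
        rw [h5]; abel
      have h7 : Uᴴ * B + Uᴴ * U * Vᴴ + (Vᴴ * E + (X - Uᴴ * U) * Vᴴ) =
          Uᴴ * B + Vᴴ * E + X * Vᴴ := by
        rw [Matrix.sub_mul]; abel
      rw [h6, h7, Matrix.add_mul, Matrix.add_mul, Matrix.mul_assoc X, Matrix.mul_assoc X, hX2]
      have h8 : Uᴴ * B * V + Vᴴ * E * V = 0 := by
        rw [Matrix.mul_assoc, Matrix.mul_assoc]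
        have h9 : B * V = - (A * U) := by
          rw [eq_neg_iff_add_eq_zero, add_comm]; exact h1
        have h10 : E * V = - (C * U) := by
          rw [eq_neg_iff_add_eq_zero, add_comm]; exact h2
        rw [h9, h10, Matrix.mul_neg, Matrix.mul_neg, ← Matrix.mul_assoc, ← Matrix.mul_assoc, h4,
          Matrix.neg_mul]
        abel
      rw [h8, zero_add, ← Matrix.mul_add]
      congr 1
      abel
  have hd := congrArg det key
  rw [det_mul, det_mul, det_mul, det_mul, det_fromBlocks_zero₁₂, det_fromBlocks_zero₂₁,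
    det_fromBlocks_zero₂₁, det_fromBlocks_zero₁₂, det_fromBlocks_zero₁₂, det_one, det_one,
    det_conjTranspose] at hd
  simp only [one_mul, mul_one] at hd
  rw [e1]
  linear_combination hd

/-- **the identity of Faddeev and Popov** -/
theorem af_fp :
    ∀ {W T : Type} [Fintype W] [Fintype T] [DecidableEq W] [DecidableEq T]
      (h : Matrix (W ⊕ T) (W ⊕ T) ℂ) (D : Matrix (W ⊕ T) T ℂ), h * D = 0 → Dᴴ * h = 0 →
      det (h + D * Dᴴ) * (det D.toRows₂ * star (det D.toRows₂)) =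
        det (Dᴴ * D) ^ 2 * det h.toBlocks₁₁ := by
  intro W T _ _ _ _ h D hD1 hD2
  have e1 : fromBlocks h.toBlocks₁₁ h.toBlocks₁₂ h.toBlocks₂₁ h.toBlocks₂₂ = h :=
    fromBlocks_toBlocks h
  have e2 : fromRows D.toRows₁ D.toRows₂ = D := fromRows_toRows D
  have f1 : fromBlocks h.toBlocks₁₁ h.toBlocks₁₂ h.toBlocks₂₁ h.toBlocks₂₂ *
      fromRows D.toRows₁ D.toRows₂ = 0 := by rw [e1, e2, hD1]
  have f2 : (fromRows D.toRows₁ D.toRows₂)ᴴ *
      fromBlocks h.toBlocks₁₁ h.toBlocks₁₂ h.toBlocks₂₁ h.toBlocks₂₂ = 0 := by rw [e1, e2, hD2]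
  rw [fromBlocks_mul_fromRows, ← fromRows_zero] at f1
  rw [conjTranspose_fromRows_eq_fromCols_conjTranspose, fromCols_mul_fromBlocks,
    ← fromCols_zero] at f2
  obtain ⟨g1, g2⟩ := fromRows_inj f1
  obtain ⟨g3, -⟩ := fromCols_inj f2
  have := fp_blocks _ _ _ _ _ _ g1 g2 g3
  rw [e1, e2] at this
  exact this

end Pool.Agent.Y721.AF
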