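import Mathlib
import Pool.Agent.Y16.AF.StmD
import Pool.Agent.Y16.AF.Prob2
import Pool.Agent.TH249.JA

/-! # The two quadratic forms for `SU(N)` (project AF, helper16) -/

set_option autoImplicit false

open MeasureTheory Matrix Filter
open scoped Matrix.Norms.Frobenius Topology
open Pool.Agent.Y16.Gluon Pool.Agent.Y16.AF

namespace Pool.Agent.Y721.AF.Sun

variable {N n : ℕ} {G : Subgroup (UU N)}

/-- the determinant of the exponential of a skew-hermitian matrix -/
theorem det_exp_skew (A : Mt N) (hA : Aᴴ = -A) (t : ℝ) :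
    det (NormedSpace.exp (t • A)) = Complex.exp (t * trace A) := by
  have h1 : star ((-(Complex.I * t)) • A) = (-(Complex.I * t)) • A := by
    rw [star_eq_conjTranspose, conjTranspose_smul, hA]
    simp
  have h2 := Pool.Agent.TH249.JA.det_exp ((-(Complex.I * t)) • A) h1
  have e : Complex.I • ((-(Complex.I * t)) • A) = t • A := by
    rw [smul_smul]
    have : Complex.I * -(Complex.I * t) = (t : ℂ) := by
      linear_combination (-(t : ℂ)) * Complex.I_mul_I
    rw [this]
    exact Complex.coe_smul t A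
  rw [e] at h2
  rw [h2, trace_smul, smul_eq_mul]
  congr 1
  linear_combination (-(t : ℂ) * trace A) * Complex.I_mul_I

/-- the basis is traceless -/
theorem tr_zero (B : LieBasis G n) (hG : ∀ U : UU N, U ∈ G ↔ det (U : Mt N) = 1) (a : Fin n) :
    trace (B.X a) = 0 := by
  have h1 : ∀ t : ℝ, Complex.exp (t * trace (B.X a)) = 1 := by
    intro t
    rw [← det_exp_skew (B.X a) (skX B a) t, ← B.ex_eq a t]
    exact (hG _).mp (B.ex a t).2
  have h2 : HasDerivAt (fun t : ℝ => Complex.exp (t * trace (B.X a))) (trace (B.X a)) 0 := by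
    have h3 : HasDerivAt (fun t : ℝ => (t : ℂ) * trace (B.X a)) (trace (B.X a)) 0 := by
      have := (Complex.ofRealCLM.hasDerivAt (x := (0 : ℝ))).mul_const (trace (B.X a))
      simpa using this
    have h4 := h3.cexp
    simpa using h4
  have h5 : HasDerivAt (fun t : ℝ => Complex.exp (t * trace (B.X a))) 0 0 := by
    have : (fun t : ℝ => Complex.exp (t * trace (B.X a))) = fun _ => 1 := funext h1
    rw [this]
    exact hasDerivAt_const _ _
  exact h2.unique h5

/-- traceless skew-hermitian matrices are in the span -/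
theorem mem_span' (B : LieBasis G n) (hG : ∀ U : UU N, U ∈ G ↔ det (U : Mt N) = 1) {M : Mt N}
    (h1 : Mᴴ = -M) (h2 : trace M = 0) : M ∈ Submodule.span ℝ (Set.range B.X) := by
  apply B.full
  intro t
  have hu : NormedSpace.exp (t • M) ∈ Matrix.unitaryGroup (Fin N) ℂ := by
    rw [Matrix.mem_unitaryGroup_iff, star_eq_conjTranspose, ← Matrix.exp_conjTranspose,
      conjTranspose_smul, h1, star_trivial, smul_neg, Matrix.exp_neg]
    exact Matrix.mul_nonsing_inv _ ((Matrix.isUnit_iff_isUnit_det _).mp (Matrix.isUnit_exp _))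
  refine ⟨⟨⟨NormedSpace.exp (t • M), hu⟩, (hG _).mpr ?_⟩, rfl⟩
  show det (NormedSpace.exp (t • M)) = 1
  rw [det_exp_skew M h1, h2, mul_zero, Complex.exp_zero]

theorem complete_skew (B : LieBasis G n) (hN : 0 < N)
    (hG : ∀ U : UU N, U ∈ G ↔ det (U : Mt N) = 1) {M : Mt N} (hM : Mᴴ = -M) :
    ∑ a, trace ((B.X a)ᴴ * M) • B.X a = M - (trace M / N) • (1 : Mt N) := by
  have hN' : (N : ℂ) ≠ 0 := by exact_mod_cast hN.ne'
  have htr : star (trace M) = -trace M := by
    rw [← trace_conjTranspose, hM, trace_neg]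
  have hskew : (M - (trace M / N) • (1 : Mt N))ᴴ = -(M - (trace M / N) • (1 : Mt N)) := by
    rw [conjTranspose_sub, hM, conjTranspose_smul, conjTranspose_one, star_div₀, htr]
    rw [star_natCast, neg_div, neg_smul]
    abel
  have htrace : trace (M - (trace M / N) • (1 : Mt N)) = 0 := by
    rw [trace_sub, trace_smul, trace_one, Fintype.card_fin, smul_eq_mul,
      div_mul_cancel₀ _ hN', sub_self]
  have h1 := expand B (mem_span' B hG hskew htrace)
  have h2 : ∀ a, (((trace ((B.X a)ᴴ * (M - (trace M / N) • (1 : Mt N)))).re : ℝ)) • B.X a =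
      trace ((B.X a)ᴴ * M) • B.X a := by
    intro a
    have e1 : trace ((B.X a)ᴴ * (M - (trace M / N) • (1 : Mt N))) = trace ((B.X a)ᴴ * M) := by
      rw [mul_sub, trace_sub, Matrix.mul_smul, Matrix.mul_one, trace_smul, trace_conjTranspose,
        tr_zero B hG a, star_zero, smul_zero, sub_zero]
    have e2 : star (trace ((B.X a)ᴴ * M)) = trace ((B.X a)ᴴ * M) := by
      rw [← trace_conjTranspose, conjTranspose_mul, conjTranspose_conjTranspose, hM, skX B a,
        neg_mul, neg_mul, trace_neg, trace_neg, trace_mul_comm]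
    have e3 : ((trace ((B.X a)ᴴ * M)).re : ℂ) = trace ((B.X a)ᴴ * M) :=
      Complex.conj_eq_iff_re.mp e2
    rw [e1, ← Complex.coe_smul, e3]
  rw [h1, Finset.sum_congr rfl fun a _ => h2 a]

theorem complete (B : LieBasis G n) (hN : 0 < N)
    (hG : ∀ U : UU N, U ∈ G ↔ det (U : Mt N) = 1) (M : Mt N) :
    ∑ a, trace ((B.X a)ᴴ * M) • B.X a = M - (trace M / N) • (1 : Mt N) := by
  have hP : ((1 / 2 : ℂ) • (M - Mᴴ))ᴴ = -((1 / 2 : ℂ) • (M - Mᴴ)) := by
    rw [conjTranspose_smul, conjTranspose_sub, conjTranspose_conjTranspose, ← smul_neg, neg_sub]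
    congr 1
    simp
  have hQ : ((-Complex.I / 2 : ℂ) • (M + Mᴴ))ᴴ = -((-Complex.I / 2 : ℂ) • (M + Mᴴ)) := by
    rw [conjTranspose_smul, conjTranspose_add, conjTranspose_conjTranspose, ← neg_smul,
      add_comm Mᴴ M]
    congr 1
    simp
    ring
  have e : M = (1 / 2 : ℂ) • (M - Mᴴ) + Complex.I • ((-Complex.I / 2 : ℂ) • (M + Mᴴ)) := by
    rw [smul_smul]
    have : Complex.I * (-Complex.I / 2) = 1 / 2 := by
      linear_combination (-(1 / 2 : ℂ)) * Complex.I_mul_I
    rw [this, ← smul_add, sub_add_add_cancel, ← two_smul ℂ, smul_smul]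
    norm_num
  have h1 := complete_skew B hN hG hP
  have h2 := complete_skew B hN hG hQ
  generalize (1 / 2 : ℂ) • (M - Mᴴ) = P at *
  generalize (-Complex.I / 2 : ℂ) • (M + Mᴴ) = Q at *
  rw [e]
  have h3 : ∀ a, trace ((B.X a)ᴴ * (P + Complex.I • Q)) • B.X a =
      trace ((B.X a)ᴴ * P) • B.X a + Complex.I • (trace ((B.X a)ᴴ * Q) • B.X a) := by
    intro a
    rw [Matrix.mul_add, trace_add, Matrix.mul_smul, trace_smul, add_smul, smul_eq_mul, mul_smul]
  rw [Finset.sum_congr rfl fun a _ => h3 a, Finset.sum_add_distrib, ← Finset.smul_sum, h1, h2,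
    trace_add, trace_smul, smul_eq_mul, smul_sub, smul_smul, add_div, add_smul, mul_div_assoc]
  abel

/-- the entries -/
theorem entries (B : LieBasis G n) (hN : 0 < N)
    (hG : ∀ U : UU N, U ∈ G ↔ det (U : Mt N) = 1) (i j k l : Fin N) :
    ∑ a, star (B.X a i j) * B.X a k l = (if i = k ∧ j = l then 1 else 0) -
      (if i = j then 1 else 0) * (if k = l then 1 else 0) / (N : ℂ) := by
  have h := complete B hN hG (Matrix.single i j 1)
  have h1 : ∀ a, trace ((B.X a)ᴴ * Matrix.single i j (1 : ℂ)) = star (B.X a i j) := by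
    intro a
    rw [Matrix.trace]
    rw [Finset.sum_eq_single j]
    · rw [diag_apply, Matrix.mul_apply, Finset.sum_eq_single i]
      · simp
      · intro b _ hb
        rw [Matrix.single_apply_of_ne _ _ _ _ _ (by tauto), mul_zero]
      · simp
    · intro b _ hb
      rw [diag_apply, Matrix.mul_apply]
      apply Finset.sum_eq_zero
      intro c _
      rw [Matrix.single_apply_of_ne _ _ _ _ _ (by tauto), mul_zero]
    · simp
  have h2 := congrFun (congrFun h k) l
  rw [Finset.sum_congr rfl fun a _ => by rw [h1 a], Matrix.sum_apply] at h2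
  simp only [Matrix.smul_apply, smul_eq_mul, Matrix.sub_apply] at h2
  rw [h2, Matrix.single_apply, Matrix.one_apply]
  have h3 : trace (Matrix.single i j (1 : ℂ)) = if i = j then 1 else 0 := by
    rw [Matrix.trace]
    by_cases hij : i = j
    · subst hij
      rw [if_pos rfl, Finset.sum_eq_single i]
      · simp
      · intro b _ hb
        rw [diag_apply, Matrix.single_apply_of_ne _ _ _ _ _ (by tauto)]
      · simp
    · rw [if_neg hij]
      apply Finset.sum_eq_zero
      intro b _
      rw [diag_apply, Matrix.single_apply_of_ne _ _ _ _ _ (by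
        rintro ⟨rfl, rfl⟩
        exact hij rfl)]
  rw [h3]
  ring

/-- elements of the span are traceless -/
theorem tr_span (B : LieBasis G n) (hG : ∀ U : UU N, U ∈ G ↔ det (U : Mt N) = 1) {T : Mt N}
    (hT : T ∈ Submodule.span ℝ (Set.range B.X)) : trace T = 0 ∧ Tᴴ = -T := by
  induction hT using Submodule.span_induction with
  | mem x hx => obtain ⟨a, rfl⟩ := hx; exact ⟨tr_zero B hG a, skX B a⟩
  | zero => simp
  | add x y _ _ hx hy =>
    refine ⟨by rw [trace_add, hx.1, hy.1, add_zero], ?_⟩
    rw [conjTranspose_add, hx.2, hy.2]; abel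
  | smul c x _ hx =>
    refine ⟨by rw [trace_smul, hx.1, smul_zero], ?_⟩
    rw [conjTranspose_smul, hx.2]; simp

theorem sum_XX (B : LieBasis G n) (hN : 0 < N)
    (hG : ∀ U : UU N, U ∈ G ↔ det (U : Mt N) = 1) :
    ∑ a, (B.X a)ᴴ * B.X a = ((N : ℂ) - 1 / N) • (1 : Mt N) := by
  ext j l
  rw [Matrix.sum_apply]
  have h1 : ∀ a, ((B.X a)ᴴ * B.X a) j l = ∑ i, star (B.X a i j) * B.X a i l := by
    intro a
    rw [Matrix.mul_apply]
    rfl
  rw [Finset.sum_congr rfl fun a _ => h1 a, Finset.sum_comm,
    Finset.sum_congr rfl fun i _ => entries B hN hG i j i l]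
  rw [Finset.sum_sub_distrib, Matrix.smul_apply, Matrix.one_apply, smul_eq_mul]
  by_cases h : j = l
  · subst h
    simp only [and_self, if_true, Finset.sum_const, Finset.card_univ, Fintype.card_fin,
      nsmul_eq_mul, mul_one]
    rw [Finset.sum_eq_single j]
    · simp
    · intro b _ hb
      rw [if_neg hb]
      simp
    · simp
  · simp only [h, and_false, if_false, Finset.sum_const_zero, mul_zero]
    rw [Finset.sum_eq_zero, sub_zero]
    intro i _
    by_cases h2 : i = j
    · subst h2
      rw [if_neg h]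
      simp
    · rw [if_neg h2]
      simp

theorem ite_aux (P Q R : Prop) [Decidable P] [Decidable Q] [Decidable R] (t d c : ℂ) :
    -(t * ((if P ∧ Q then 1 else 0) - (if R then 1 else 0) * d / c)) =
      (if P then -(t * (if Q then 1 else 0)) else 0) + (if R then t * d / c else 0) := by
  by_cases a1 : P <;> by_cases a2 : Q <;> by_cases a3 : R <;>
    simp only [a1, a2, a3, and_self, and_true, and_false, true_and, false_and, if_true,
      if_false] <;> ring

theorem sum_XTX (B : LieBasis G n) (hN : 0 < N)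
    (hG : ∀ U : UU N, U ∈ G ↔ det (U : Mt N) = 1) {T : Mt N} (hT : trace T = 0) :
    ∑ a, B.X a * T * B.X a = (1 / N : ℂ) • T := by
  ext i l
  rw [Matrix.sum_apply]
  have hX : ∀ (a : Fin n) (i j : Fin N), B.X a i j = -star (B.X a j i) := by
    intro a i j
    have h := congrFun (congrFun (skX B a) i) j
    rw [conjTranspose_apply, Matrix.neg_apply] at h
    rw [h, neg_neg]
  have h1 : ∀ a, (B.X a * T * B.X a) i l =
      ∑ k, ∑ j, -(T j k * (star (B.X a j i) * B.X a k l)) := by
    intro a
    rw [Matrix.mul_apply]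
    refine Finset.sum_congr rfl fun k _ => ?_
    rw [Matrix.mul_apply, Finset.sum_mul]
    refine Finset.sum_congr rfl fun j _ => ?_
    rw [hX a i j]
    ring
  rw [Finset.sum_congr rfl fun a _ => h1 a, Finset.sum_comm]
  have h2 : ∀ k, ∑ a, ∑ j, -(T j k * (star (B.X a j i) * B.X a k l)) =
      ∑ j, -(T j k * ((if j = k ∧ i = l then 1 else 0) -
      (if j = i then 1 else 0) * (if k = l then 1 else 0) / (N : ℂ))) := by
    intro k
    rw [Finset.sum_comm]
    refine Finset.sum_congr rfl fun j _ => ?_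
    rw [Finset.sum_neg_distrib, ← Finset.mul_sum, entries B hN hG j i k l]
  rw [Finset.sum_congr rfl fun k _ => h2 k]
  have h3 : ∀ k, ∑ j, -(T j k * ((if j = k ∧ i = l then 1 else 0) -
      (if j = i then 1 else 0) * (if k = l then 1 else 0) / (N : ℂ))) =
      -(T k k * (if i = l then 1 else 0)) + T i k * (if k = l then 1 else 0) / N := by
    intro k
    have e : ∀ j, -(T j k * ((if j = k ∧ i = l then 1 else 0) -
      (if j = i then 1 else 0) * (if k = l then 1 else 0) / (N : ℂ))) =
      (if j = k then -(T j k * (if i = l then 1 else 0)) else 0) +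
        (if j = i then T j k * (if k = l then 1 else 0) / N else 0) := by
      intro j
      exact ite_aux _ _ _ _ _ _
    rw [Finset.sum_congr rfl fun j _ => e j, Finset.sum_add_distrib, Finset.sum_ite_eq',
      Finset.sum_ite_eq', if_pos (Finset.mem_univ _), if_pos (Finset.mem_univ _)]
  rw [Finset.sum_congr rfl fun k _ => h3 k, Finset.sum_add_distrib, Finset.sum_neg_distrib,
    ← Finset.sum_mul]
  have h4 : ∑ k, T k k = 0 := hT
  rw [h4, zero_mul, neg_zero, zero_add, Matrix.smul_apply, smul_eq_mul,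
    Finset.sum_eq_single l]
  · rw [if_pos rfl]
    ring
  · intro b _ hb
    rw [if_neg hb]
    simp
  · simp

/-- **the two quadratic forms for `SU(N)`** -/
theorem af_sun : S_SUN := by
  intro N n G B hN hG T hT
  obtain ⟨htr, hsk⟩ := tr_span B hG hT
  have hXX := sum_XX B hN hG
  have hXTX := sum_XTX B hN hG htr
  have hTT : ‖T‖ ^ 2 = -(trace (T * T)).re := by
    rw [frob_sq, hsk, neg_mul, trace_neg, Complex.neg_re]
  have hXX' : ∑ a, B.X a * B.X a = -(((N : ℂ) - 1 / N) • (1 : Mt N)) := by
    rw [← hXX, ← Finset.sum_neg_distrib]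
    refine Finset.sum_congr rfl fun a _ => ?_
    rw [skX B a, neg_mul, neg_neg]
  have hre : ((N : ℂ) - 1 / N) = (((N : ℝ) - 1 / N : ℝ) : ℂ) := by push_cast; rfl
  have hre2 : (1 / N : ℂ) = ((1 / N : ℝ) : ℂ) := by push_cast; rfl
  constructor
  · unfold kap
    have h1 : ∀ a, ‖T * B.X a - B.X a * T‖ ^ 2 =
        2 * (trace (T * T * (B.X a * B.X a))).re - 2 * (trace (T * (B.X a * T * B.X a))).re := by
      intro a
      have e1 : (T * B.X a - B.X a * T)ᴴ = B.X a * T - T * B.X a := by
        rw [conjTranspose_sub, conjTranspose_mul, conjTranspose_mul, skX B a, hsk, neg_mul_neg,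
          neg_mul_neg]
      have e2 : (B.X a * T - T * B.X a) * (T * B.X a - B.X a * T) =
          B.X a * (T * T * B.X a) - B.X a * (T * B.X a * T) - T * (B.X a * T * B.X a) +
            T * (B.X a * B.X a * T) := by
        noncomm_ring
      have e3 : trace (B.X a * (T * T * B.X a)) = trace (T * T * (B.X a * B.X a)) := by
        rw [trace_mul_comm, mul_assoc]
      have e4 : trace (B.X a * (T * B.X a * T)) = trace (T * (B.X a * T * B.X a)) := by
        rw [trace_mul_comm]
        congr 1
        noncomm_ring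
      have e5 : trace (T * (B.X a * B.X a * T)) = trace (T * T * (B.X a * B.X a)) := by
        rw [trace_mul_comm (T * T), trace_mul_comm T]
        congr 1
        noncomm_ring
      rw [frob_sq, e1, e2, trace_add, trace_sub, trace_sub, e3, e4, e5, Complex.add_re,
        Complex.sub_re, Complex.sub_re]
      ring
    rw [Finset.sum_congr rfl fun a _ => h1 a, Finset.sum_sub_distrib, ← Finset.mul_sum,
      ← Finset.mul_sum, ← Complex.re_sum, ← Complex.re_sum, ← trace_sum, ← trace_sum,
      ← Finset.mul_sum, ← Finset.mul_sum, hXX', hXTX, Matrix.mul_neg, Matrix.mul_smul,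
      Matrix.mul_one, trace_neg, trace_smul, Matrix.mul_smul, trace_smul, smul_eq_mul, smul_eq_mul,
      hre, hre2, Complex.neg_re, Complex.re_ofReal_mul, Complex.re_ofReal_mul, hTT]
    have hN' : (N : ℝ) ≠ 0 := by exact_mod_cast hN.ne'
    field_simp
    ring
  · have h1 : ∀ a, ‖B.X a * T‖ ^ 2 = (trace (Tᴴ * ((B.X a)ᴴ * B.X a) * T)).re := by
      intro a
      rw [frob_sq, conjTranspose_mul]
      congr 2
      noncomm_ring
    rw [Finset.sum_congr rfl fun a _ => h1 a, ← Complex.re_sum, ← trace_sum, ← Finset.sum_mul,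
      ← Finset.mul_sum, hXX, Matrix.mul_smul, Matrix.mul_one, Matrix.smul_mul, trace_smul,
      smul_eq_mul, hre, Complex.re_ofReal_mul, frob_sq]

end Pool.Agent.Y721.AF.Sun
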